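import Pool.Agent.W968.SC.Def

/-!
# Computably scattered computable posets: the upper bound half

Every computable, computably scattered poset has, for every computable order function `h`, a
computably scattered linear extension approximable with at most `h` mind changes.
-/

set_option autoImplicit false

namespace Pool.Agent.W664.SC

open Nat.Partrec (Code)
open Pool.Agent.Results.MP_f7ace6_lc.SharpErshov
open Pool.Agent.W968.SC

/-- comparison of codes of rationals -/
def ltb (m n : ℕ) : Bool :=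
  decide (m.unpair.1 * (n.unpair.2.unpair.2 + 1) + n.unpair.2.unpair.1 * (m.unpair.2.unpair.2 + 1) <
    n.unpair.1 * (m.unpair.2.unpair.2 + 1) + m.unpair.2.unpair.1 * (n.unpair.2.unpair.2 + 1))

theorem ltb_iff (m n : ℕ) : ltb m n = true ↔ rat m < rat n := by
  unfold ltb rat
  rw [decide_eq_true_iff, div_lt_div_iff₀ (by positivity) (by positivity)]
  rw [← Nat.cast_lt (α := ℚ)]
  push_cast
  constructor <;> intro h <;> linarith

/-- strictly increasing map of the rationals into the interval `(- e - 1, 1 - e)` -/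
def psi (e : ℕ) (q : ℚ) : ℚ := q / (1 + |q|) - e

/-- the map `psi e` on codes -/
def mi (e n : ℕ) : ℕ :=
  Nat.pair n.unpair.1 (Nat.pair (n.unpair.2.unpair.1 + e *
      (n.unpair.2.unpair.2 + ((n.unpair.1 - n.unpair.2.unpair.1) +
        (n.unpair.2.unpair.1 - n.unpair.1)) + 1))
    (n.unpair.2.unpair.2 + ((n.unpair.1 - n.unpair.2.unpair.1) +
        (n.unpair.2.unpair.1 - n.unpair.1))))

theorem rat_mi (e n : ℕ) : rat (mi e n) = psi e (rat n) := by
  unfold mi rat psi
  simp only [Nat.unpair_pair]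
  set a := n.unpair.1
  set b := n.unpair.2.unpair.1
  set d := n.unpair.2.unpair.2
  have hd : (0 : ℚ) < (d : ℚ) + 1 := by positivity
  have habs : (((a - b) + (b - a) : ℕ) : ℚ) = |(a : ℚ) - b| := by
    rcases le_total a b with h | h
    · rw [Nat.sub_eq_zero_of_le h, zero_add, Nat.cast_sub h, abs_of_nonpos]
      · ring
      · have : (a : ℚ) ≤ b := by exact_mod_cast h
        linarith
    · rw [Nat.sub_eq_zero_of_le h, add_zero, Nat.cast_sub h, abs_of_nonneg]
      have : (b : ℚ) ≤ a := by exact_mod_cast h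
      linarith
  have h2 : |((a : ℚ) - b) / ((d : ℚ) + 1)| = |(a : ℚ) - b| / ((d : ℚ) + 1) := by
    rw [abs_div, abs_of_pos hd]
  rw [h2]
  rw [Nat.cast_add] at habs
  have h3 : (0 : ℚ) ≤ |(a : ℚ) - b| := abs_nonneg _
  simp only [Nat.cast_add, Nat.cast_mul, Nat.cast_one, habs]
  set z : ℚ := |(a : ℚ) - b| with hz
  have h4 : (d : ℚ) + z + 1 ≠ 0 := by positivity
  have h5 : (1 : ℚ) + z / ((d : ℚ) + 1) ≠ 0 := by positivity
  field_simp
  ring

theorem psi_lt (e : ℕ) {p q : ℚ} (h : p < q) : psi e p < psi e q := by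
  unfold psi
  have hp : (0 : ℚ) < 1 + |p| := by positivity
  have hq : (0 : ℚ) < 1 + |q| := by positivity
  have : p / (1 + |p|) < q / (1 + |q|) := by
    rw [div_lt_div_iff₀ hp hq]
    rcases le_total 0 p with h1 | h1 <;> rcases le_total 0 q with h2 | h2
    · rw [abs_of_nonneg h1, abs_of_nonneg h2]; nlinarith
    · linarith
    · rw [abs_of_nonpos h1, abs_of_nonneg h2]
      nlinarith [mul_nonneg (neg_nonneg.2 h1) h2]
    · rw [abs_of_nonpos h1, abs_of_nonpos h2]; nlinarith
  linarith

theorem psi_le (e : ℕ) (q : ℚ) : psi e q < 1 - e := by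
  unfold psi
  have hq : (0 : ℚ) < 1 + |q| := by positivity
  have : q / (1 + |q|) < 1 := by
    rw [div_lt_one hq]
    have := le_abs_self q
    linarith
  linarith

theorem primrec_mi (e : ℕ) : Primrec (mi e) := by
  have u1 : Primrec (fun n : ℕ => n.unpair.1) := Primrec.fst.comp Primrec.unpair
  have u2 : Primrec (fun n : ℕ => n.unpair.2) := Primrec.snd.comp Primrec.unpair
  have ha : Primrec (fun n : ℕ => n.unpair.1) := u1
  have hb : Primrec (fun n : ℕ => n.unpair.2.unpair.1) := u1.comp u2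
  have hd : Primrec (fun n : ℕ => n.unpair.2.unpair.2) := u2.comp u2
  have hz : Primrec (fun n : ℕ => n.unpair.2.unpair.2 + ((n.unpair.1 - n.unpair.2.unpair.1) +
        (n.unpair.2.unpair.1 - n.unpair.1))) :=
    Primrec.nat_add.comp hd (Primrec.nat_add.comp (Primrec.nat_sub.comp ha hb)
      (Primrec.nat_sub.comp hb ha))
  unfold mi
  exact Primrec₂.natPair.comp ha (Primrec₂.natPair.comp
    (Primrec.nat_add.comp hb (Primrec.nat_mul.comp (Primrec.const e) (Primrec.succ.comp hz))) hz)

theorem sc_cons {P : ℕ → ℕ → Bool} (hP : BPos P) {C : List (ℕ × ℕ)} {p : ℕ × ℕ}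
    (hok : Ok P (p :: C)) (hsc : CompScattered (fun x y => R P C x y = true)) :
    CompScattered (fun x y => R P (p :: C) x y = true) := by
  rintro ⟨φ, hφ, hd⟩
  have J := R_pos hP hok.2
  by_cases hI : ∃ r0, R P C (φ r0) p.1 = true
  · obtain ⟨r0, hr0⟩ := hI
    have hI' : ∀ r, r < r0 → R P C (φ r) p.1 = true := by
      intro r hr
      have h1 := (hd r r0 hr).1
      simp only [R, Bool.or_eq_true, Bool.and_eq_true] at h1
      rcases h1 with h1 | ⟨h1, _⟩
      · exact J.trans _ _ _ h1 hr0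
      · exact h1
    have key : ∀ r r', r < r' → r' < r0 → R P C (φ r) (φ r') = true := by
      intro r r' h1 h2
      have h3 := (hd r r' h1).1
      simp only [R, Bool.or_eq_true, Bool.and_eq_true] at h3
      rcases h3 with h3 | ⟨_, h4⟩
      · exact h3
      · have h5 := J.trans _ _ _ h4 (hI' r' h2)
        have h6 := hok.1
        rw [h5] at h6
        cases h6
    obtain ⟨e, he⟩ := exists_nat_ge (1 - r0)
    refine hsc ⟨fun q => φ (psi e q), ?_, fun q q' hq => ⟨?_, ?_⟩⟩
    · refine (hφ.comp (primrec_mi e).to_comp).of_eq fun n => ?_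
      show φ (rat (mi e n)) = φ (psi e (rat n))
      rw [rat_mi]
    · refine key _ _ (psi_lt e hq) ?_
      have := psi_le e q'
      linarith
    · exact (hd _ _ (psi_lt e hq)).2
  · push Not at hI
    refine hsc ⟨φ, hφ, fun q q' hq => ⟨?_, (hd q q' hq).2⟩⟩
    have h1 := (hd q q' hq).1
    simp only [R, Bool.or_eq_true, Bool.and_eq_true] at h1
    rcases h1 with h1 | ⟨h1, _⟩
    · exact h1
    · exact absurd h1 (hI q)

theorem sc_R {P : ℕ → ℕ → Bool} (hP : BPos P) (hsc : CompScattered (fun x y => P x y = true)) :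
    ∀ {C : List (ℕ × ℕ)}, Ok P C → CompScattered (fun x y => R P C x y = true) := by
  intro C
  induction C with
  | nil => intro _; exact hsc
  | cons p C ih => intro hok; exact sc_cons hP hok (ih hok.2)

/-- pairs listed for the `i`-th code: its values at the codes `m`, `m'` of rationals
`rat m < rat m'`, in the wrong order -/
def wSc (i t : ℕ) : Option (ℕ × ℕ) :=
  (Code.evaln t.unpair.2 (Denumerable.ofNat Code i) t.unpair.1.unpair.1).bind fun u =>
    (Code.evaln t.unpair.2 (Denumerable.ofNat Code i) t.unpair.1.unpair.2).bind fun v =>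
      bif ltb t.unpair.1.unpair.1 t.unpair.1.unpair.2 then some (v, u) else none

theorem primrec_ltb : Primrec₂ ltb := by
  have u1 : Primrec (fun n : ℕ => n.unpair.1) := Primrec.fst.comp Primrec.unpair
  have u2 : Primrec (fun n : ℕ => n.unpair.2) := Primrec.snd.comp Primrec.unpair
  have hb : Primrec (fun n : ℕ => n.unpair.2.unpair.1) := u1.comp u2
  have hd : Primrec (fun n : ℕ => n.unpair.2.unpair.2 + 1) := Primrec.succ.comp (u2.comp u2)
  have h1 : Primrec (fun z : ℕ × ℕ => z.1.unpair.1 * (z.2.unpair.2.unpair.2 + 1) +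
      z.2.unpair.2.unpair.1 * (z.1.unpair.2.unpair.2 + 1)) :=
    Primrec.nat_add.comp
      (Primrec.nat_mul.comp (u1.comp Primrec.fst) (hd.comp Primrec.snd))
      (Primrec.nat_mul.comp (hb.comp Primrec.snd) (hd.comp Primrec.fst))
  have h2 : Primrec (fun z : ℕ × ℕ => z.2.unpair.1 * (z.1.unpair.2.unpair.2 + 1) +
      z.1.unpair.2.unpair.1 * (z.2.unpair.2.unpair.2 + 1)) :=
    Primrec.nat_add.comp
      (Primrec.nat_mul.comp (u1.comp Primrec.snd) (hd.comp Primrec.fst))
      (Primrec.nat_mul.comp (hb.comp Primrec.fst) (hd.comp Primrec.snd))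
  exact Primrec.nat_lt.decide.comp h1 h2

theorem primrec_wSc : Primrec₂ wSc := by
  have u1 : Primrec (fun n : ℕ => n.unpair.1) := Primrec.fst.comp Primrec.unpair
  have u2 : Primrec (fun n : ℕ => n.unpair.2) := Primrec.snd.comp Primrec.unpair
  have hc : Primrec (fun a : ℕ × ℕ => (Denumerable.ofNat Code a.1)) :=
    (Primrec.ofNat Code).comp Primrec.fst
  have ha : Primrec (fun a : ℕ × ℕ => a.2.unpair.1.unpair.1) := u1.comp (u1.comp Primrec.snd)
  have hb : Primrec (fun a : ℕ × ℕ => a.2.unpair.1.unpair.2) := u2.comp (u1.comp Primrec.snd)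
  have ht : Primrec (fun a : ℕ × ℕ => a.2.unpair.2) := u2.comp Primrec.snd
  have e1 : Primrec (fun a : ℕ × ℕ =>
      Code.evaln a.2.unpair.2 (Denumerable.ofNat Code a.1) a.2.unpair.1.unpair.1) :=
    Code.primrec_evaln.comp ((ht.pair hc).pair ha)
  have e2 : Primrec (fun a : ℕ × ℕ =>
      Code.evaln a.2.unpair.2 (Denumerable.ofNat Code a.1) a.2.unpair.1.unpair.2) :=
    Code.primrec_evaln.comp ((ht.pair hc).pair hb)
  unfold wSc
  refine Primrec.option_bind e1 ?_
  refine Primrec.option_bind (e2.comp Primrec.fst) ?_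
  have hlt : Primrec (fun z : ((ℕ × ℕ) × ℕ) × ℕ =>
      ltb z.1.1.2.unpair.1.unpair.1 z.1.1.2.unpair.1.unpair.2) :=
    primrec_ltb.comp (ha.comp (Primrec.fst.comp Primrec.fst))
      (hb.comp (Primrec.fst.comp Primrec.fst))
  exact Primrec.cond hlt
    (Primrec.option_some.comp (Primrec.snd.pair (Primrec.snd.comp Primrec.fst)))
    (Primrec.const none)

theorem wSc_some {i t : ℕ} {q : ℕ × ℕ} (h : wSc i t = some q) :
    ∃ k k', rat k < rat k' ∧ q.2 ∈ Code.eval (Denumerable.ofNat Code i) k ∧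
      q.1 ∈ Code.eval (Denumerable.ofNat Code i) k' := by
  unfold wSc at h
  rw [Option.bind_eq_some_iff] at h
  obtain ⟨u, hu, h⟩ := h
  rw [Option.bind_eq_some_iff] at h
  obtain ⟨v, hv, h⟩ := h
  cases hlt : ltb t.unpair.1.unpair.1 t.unpair.1.unpair.2 with
  | true =>
    rw [hlt] at h
    simp only [cond_true, Option.some.injEq] at h
    subst h
    exact ⟨_, _, (ltb_iff _ _).1 hlt, Code.evaln_sound hu, Code.evaln_sound hv⟩
  | false =>
    rw [hlt] at h
    cases h

theorem wSc_mem {i k k' u v : ℕ} (hk : rat k < rat k')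
    (hu : u ∈ Code.eval (Denumerable.ofNat Code i) k)
    (hv : v ∈ Code.eval (Denumerable.ofNat Code i) k') : ∃ t, wSc i t = some (v, u) := by
  obtain ⟨a, ha⟩ := Code.evaln_complete.1 hu
  obtain ⟨b, hb⟩ := Code.evaln_complete.1 hv
  refine ⟨Nat.pair (Nat.pair k k') (max a b), ?_⟩
  unfold wSc
  simp only [Nat.unpair_pair]
  rw [Code.evaln_mono (le_max_left a b) ha, Code.evaln_mono (le_max_right a b) hb]
  simp [(ltb_iff k k').2 hk]

theorem rat_surj (q : ℚ) : ∃ n, rat n = q := by
  refine ⟨Nat.pair q.num.toNat (Nat.pair (-q.num).toNat (q.den - 1)), ?_⟩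
  unfold rat
  simp only [Nat.unpair_pair]
  have h1 : ((q.num.toNat : ℕ) : ℚ) - (((-q.num).toNat : ℕ) : ℚ) = (q.num : ℚ) := by
    have : ((q.num.toNat : ℕ) : ℤ) - (((-q.num).toNat : ℕ) : ℤ) = q.num := by omega
    exact_mod_cast this
  have h2 : (((q.den - 1 : ℕ) : ℚ) + 1) = (q.den : ℚ) := by
    have h3 := q.den_pos
    have : (q.den - 1) + 1 = q.den := by omega
    exact_mod_cast this
  rw [h1, h2]
  exact Rat.num_div_den q

/-- every computable, computably scattered poset has, for every computable order function `h`,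
a computably scattered linear extension approximable with at most `h` mind changes -/
theorem upper_sc {P : ℕ → ℕ → Prop} (hP : ComputablePoset P) (hsc : CompScattered P)
    {h : ℕ → ℕ} (hh : Computable h) (hm : Monotone h) (hu : ∀ N, ∃ m, N ≤ h m) :
    ∃ L : ℕ → ℕ → Prop, LinearExtension P L ∧ CompScattered L ∧
      MindChanges L (fun x y => h (Nat.pair x y)) := by
  obtain ⟨Q, hQ, hQc, hQP⟩ := toBool hP
  have hPQ : (fun x y => Q x y = true) = P := by
    funext x y; exact propext (hQP x y)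
  have hE := Lin_ext hQ wSc h
  rw [hPQ] at hE
  refine ⟨Lin Q wSc h, hE, ?_, Lin_mind hQ hQc primrec_wSc.to_comp hh hm⟩
  rintro ⟨φ, hφ, hd⟩
  obtain ⟨i, hi⟩ := exists_index hφ
  have mem : ∀ k u, u ∈ Code.eval (Denumerable.ofNat Code i) k → u = φ (rat k) := by
    intro k u hu
    rw [hi k] at hu
    exact Part.mem_some_iff.1 hu
  rcases requirement hQ wSc (ev_h hm hu) i with ⟨t, q, ht, hL, hne⟩ | ⟨C, hC, hall⟩
  · obtain ⟨k, k', hk, h1, h2⟩ := wSc_some ht
    have e1 := mem _ _ h1
    have e2 := mem _ _ h2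
    have := (hd _ _ hk).1
    rw [← e1, ← e2] at this
    exact hne (hE.antisymm _ _ hL this)
  · have hscC := sc_R hQ (C := C) (by rw [hPQ]; exact hsc) hC
    refine hscC ⟨φ, hφ, fun r r' hr => ⟨?_, (hd r r' hr).2⟩⟩
    obtain ⟨k, rfl⟩ := rat_surj r
    obtain ⟨k', rfl⟩ := rat_surj r'
    obtain ⟨t, ht⟩ := wSc_mem (i := i) (k := k) (k' := k') (u := φ (rat k)) (v := φ (rat k'))
      hr (by rw [hi]; exact Part.mem_some _) (by rw [hi]; exact Part.mem_some _)
    exact hall t _ ht

end Pool.Agent.W664.SC
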